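import Pool.Agent.H.MP_b5276a_an.B

namespace Pool.Agent.Results.MP_b5276a_an.No
open Pool.Agent.H.MP_b5276a_an
open scoped ZeroAtInfty

theorem result :
    CompleteSpace C₀(ℕ, ℝ) ∧ ASQ C₀(ℕ, ℝ) ∧ ¬ ASQ (UniformSpace.Completion (SymT C₀(ℕ, ℝ))) :=
  ⟨inferInstance, c0_asq, main⟩

end Pool.Agent.Results.MP_b5276a_an.No
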